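import Pool.Agent.H6.TG.Main

/-!
# A separable C*-algebra that is not a twisted étale groupoid C*-algebra

The definitions (topological groupoids, étale groupoids, twists, the convolution algebra of a twist,
the regular representations and the reduced C*-algebra) are in `Pool/Agent/H6/TG/Defs.lean`.

The algebra `A` is the unital algebra of the pairs `(T, f)` consisting of a bounded operator `T` on
`ℓ²` and a continuous function `f` on the compact plane set
`Y = 𝕋 ∪ {(1 + 1/(k+j+1)) e^{i/(k+1)} : k, j ≥ 0}` such that `T - L(f)` is compact; here `L(f)` is
the compression to `ℓ²(ℕ ⊕ ℕ³)` of the functional calculus `f(W)` of the direct sum `W` of the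
bilateral shift and of a diagonal operator with the isolated points of `Y` as eigenvalues of infinite
multiplicity. So `A` is an extension of `C(Y)` by the compact operators, with nonzero index.
-/

namespace Pool.Agent.Results.MP_80e67e_an.SeparableCounterexample

open Pool.Agent.H6.TG

universe u v w

/-- There is a separable (unital) C*-algebra `A` such that, for every twist `T` over every étale
groupoid, all locally compact and Hausdorff, `A` is not isomorphic to the reduced twisted groupoid
C*-algebra. -/
theorem result : ∃ (A : Type) (_ : CStarAlgebra A), TopologicalSpace.SeparableSpace A ∧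
    ∀ (X : Type u) (G : Type v) (S : Type w) [TopologicalSpace X] [TopologicalSpace G]
      [TopologicalSpace S] [T2Space G] [LocallyCompactSpace G] [T2Space S] [LocallyCompactSpace S]
      (𝒢 : TopGroupoid X G) (T : Twist 𝒢 S), 𝒢.IsEtale → ¬ T.IsReducedCStarAlgebra A :=
  main

end Pool.Agent.Results.MP_80e67e_an.SeparableCounterexample
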